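import Pool.Agent.helper12.DD.Spec2

/-! Module dw:STS of problem MP_baa4d7_al: the stabiliser of a chain and a character. -/

set_option autoImplicit false

open Pool.Agent.helper49.Blk

namespace Pool.Agent.DD

theorem STS_mem {G : Type} [Group G] {C : List (Subgroup G)} {x : G} :
    x ∈ NC C ↔ ∀ P ∈ C, x ∈ Subgroup.normalizer (P : Set G) := by
  rw [NC, Subgroup.mem_iInf]
  exact forall_congr' fun Q => Subgroup.mem_iInf

/-- an element which normalises the members of the chain normalises `NC C` -/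
theorem STS_nc {G E : Type} [Group G] [Group E] (ι : G →* E) (hn : ι.range.Normal)
    (C : List (Subgroup G)) (e : E)
    (h : ∀ P ∈ C, ∀ x y : G, ι y = e * ι x * e⁻¹ → (x ∈ P ↔ y ∈ P)) :
    ∀ x y : G, ι y = e * ι x * e⁻¹ → (x ∈ NC C ↔ y ∈ NC C) := by
  intro x y hxy
  rw [STS_mem, STS_mem]
  refine forall_congr' fun P => forall_congr' fun hP => ?_
  rw [Subgroup.mem_normalizer_iff, Subgroup.mem_normalizer_iff]
  have key : ∀ a b : G, ι b = e * ι a * e⁻¹ →
      ((a ∈ P ↔ x * a * x⁻¹ ∈ P) ↔ (b ∈ P ↔ y * b * y⁻¹ ∈ P)) := by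
    intro a b hab
    have h1 := h P hP a b hab
    have h2 := h P hP (x * a * x⁻¹) (y * b * y⁻¹) (by
      rw [map_mul, map_mul, map_inv, map_mul, map_mul, map_inv, hxy, hab]
      group)
    rw [h1, h2]
  constructor
  · intro hx b
    obtain ⟨a, ha⟩ := hn.conj_mem _ ⟨b, rfl⟩ e⁻¹
    exact (key a b (by rw [ha]; group)).1 (hx a)
  · intro hy a
    obtain ⟨b, hb⟩ := hn.conj_mem _ ⟨a, rfl⟩ e
    exact (key a b hb).2 (hy b)

theorem STS : STS_stmt := by
  intro G E _ _ ι hι hn C N hN ψ
  subst hN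
  let S' : Subgroup E :=
    { carrier := {e | Fixes ι {P | P ∈ C} (NC C) ψ e}
      mul_mem' := by
        intro e e' he he'
        have hnc := STS_nc ι hn C e' he'.1
        constructor
        · intro P hP x y hxy
          obtain ⟨z, hz⟩ := hn.conj_mem _ ⟨x, rfl⟩ e'
          have h1 := he'.1 P hP x z hz
          have h2 := he.1 P hP z y (by rw [hxy, hz]; group)
          rw [h1, h2]
        · intro x y hxy
          obtain ⟨z, hz⟩ := hn.conj_mem _ ⟨x.1, rfl⟩ e'
          have hzN : z ∈ NC C := (hnc x.1 z hz).1 x.2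
          have h1 := he'.2 x ⟨z, hzN⟩ hz
          have h2 := he.2 ⟨z, hzN⟩ y (by rw [hxy]; show _ = e * ι z * e⁻¹; rw [hz]; group)
          rw [h2, h1]
      one_mem' := by
        constructor
        · intro P hP x y hxy
          have h1 : y = x := hι (by rw [hxy]; group)
          rw [h1]
        · intro x y hxy
          have h1 : y = x := Subtype.ext (hι (by rw [hxy]; group))
          rw [h1]
      inv_mem' := by
        intro e he
        constructor
        · intro P hP x y hxy
          exact (he.1 P hP y x (by rw [hxy]; group)).symm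
        · intro x y hxy
          exact (he.2 y x (by rw [hxy]; group)).symm }
  have hS' : ∀ e, e ∈ S' ↔ Fixes ι {P | P ∈ C} (NC C) ψ e := fun _ => Iff.rfl
  refine ⟨⟨S', hS'⟩, S' ⊔ ι.range, ?_, le_sup_right⟩
  intro e
  haveI := hn
  rw [← SetLike.mem_coe, Subgroup.mul_normal, Set.mem_mul]
  constructor
  · rintro ⟨s, hs, _, ⟨g, rfl⟩, rfl⟩
    refine ⟨g⁻¹, ?_⟩
    rw [← hS', map_inv, mul_inv_cancel_right]
    exact hs
  · rintro ⟨g, hg⟩
    refine ⟨e * ι g, (hS' _).2 hg, (ι g)⁻¹, ι.range.inv_mem ⟨g, rfl⟩, ?_⟩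
    exact mul_inv_cancel_right e (ι g)

end Pool.Agent.DD
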